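import Mathlib
import Pool.Agent.Q292.OPF.Main

/-!
# Oriented percolation flow near `p = 1`

`Q292.OPF.V n ω` is the largest number of pairwise edge disjoint open oriented paths from `S n` to
`T n` in the box `{0, …, n - 1}²`, and `Q292.OPF.perc p` is Bernoulli bond percolation with
parameter `p` (see `Pool/Agent/Q292/OPF/Defs.lean` for all the definitions).
-/

namespace Pool.Agent.Results.MP_465a95_pr.FlowNearOne

open MeasureTheory ProbabilityTheory Filter Topology Q292.OPF

/-- If `v p` is the limit in `L¹` of `V n / (2 n)` for all `0 < p < 1` then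
`(1 - v p) / √(2 (1 - p)) → 1` as `p ↑ 1`. Moreover, without any assumption, for every `δ > 0` and
all `p < 1` close enough to `1`, the probability that `(1 - V n / (2 n)) / √(2 (1 - p))` is further
than `δ` from `1` tends to `0` as `n → ∞`. -/
theorem result :
    (∀ v : ℝ → ℝ,
      (∀ p : unitInterval, 0 < (p : ℝ) → (p : ℝ) < 1 →
        Tendsto (fun n : ℕ => ∫ ω, |(V n ω : ℝ) / (2 * n) - v p| ∂(perc p)) atTop (𝓝 0)) →
      Tendsto (fun p : ℝ => (1 - v p) / Real.sqrt (2 * (1 - p))) (𝓝[<] 1) (𝓝 1)) ∧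
    (∀ δ : ℝ, 0 < δ → ∃ p₀ < (1 : ℝ), ∀ p : unitInterval, p₀ < (p : ℝ) → (p : ℝ) < 1 →
      Tendsto (fun n : ℕ => (perc p).real
        {ω | δ < |(1 - (V n ω : ℝ) / (2 * n)) / Real.sqrt (2 * (1 - p)) - 1|}) atTop (𝓝 0)) :=
  ⟨fun v hv => main v hv, fun _ hδ => in_probability hδ⟩

end Pool.Agent.Results.MP_465a95_pr.FlowNearOne
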